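import Mathlib

/-!
# MP_0ae2e1_co: a graph in which each edge lies in at most three triangles has a 2-colouring of its
edges without monochromatic triangle (project TR3)

Definitions and piece statements.  Paper proofs: `NOTES.md`.
-/

namespace TriRam

open Classical

/-! ## Definitions for the statement -/

/-- `c` colours the pairs with two colours so that no triangle of `G` is monochromatic. -/
def Good {V : Type} (G : SimpleGraph V) (c : Sym2 V → Bool) : Prop :=
  ∀ x y z, G.Adj x y → G.Adj y z → G.Adj x z →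
    ¬ (c s(x, y) = c s(y, z) ∧ c s(y, z) = c s(x, z))

/-- The number of triangles of `G` on the pair `x, y`. -/
noncomputable def tr {V : Type} [Fintype V] (G : SimpleGraph V) (x y : V) : ℕ :=
  (Finset.univ.filter fun z => G.Adj x z ∧ G.Adj y z).card

/-- The target. -/
def Target : Prop :=
  ∀ (V : Type) [Fintype V] (G : SimpleGraph V), (∀ x y, G.Adj x y → tr G x y ≤ 3) →
    ∃ c : Sym2 V → Bool, Good G c

/-! ## Abstract hypergraphs (`I l p`: the point `p` is on the line `l`) -/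

/-- Every line has three points and every point is on three lines. -/
def Reg3 {P L : Type} [Fintype P] [Fintype L] (I : L → P → Prop) : Prop :=
  (∀ l, (Finset.univ.filter fun p => I l p).card = 3) ∧
  (∀ p, (Finset.univ.filter fun l => I l p).card = 3)

/-- Connected. -/
def Conn {P L : Type} (I : L → P → Prop) : Prop :=
  ∀ U : Set P, U.Nonempty → (∀ l p q, I l p → I l q → p ∈ U → q ∈ U) → ∀ p, p ∈ U

/-- Two-colourable. -/
def Col {P L : Type} (I : L → P → Prop) : Prop :=
  ∃ c : P → Bool, ∀ l, ∃ p q, I l p ∧ I l q ∧ c p ≠ c q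

/-- A partial structure: as many lines as points, two-coloured. -/
def Part {P L : Type} (I : L → P → Prop) (TC : Finset L) (PC : Finset P) (c : P → Bool) : Prop :=
  PC.Nonempty ∧ TC.card = PC.card ∧
    ∀ l ∈ TC, ∃ p ∈ PC, ∃ q ∈ PC, I l p ∧ I l q ∧ c p ≠ c q

/-- H1: a partial structure whose complement has a matching extends to a colouring. -/
def ExtStm : Prop :=
  ∀ (P L : Type) [Fintype P] [Fintype L] (I : L → P → Prop), Reg3 I → Conn I →
    ∀ (TC : Finset L) (PC : Finset P) (c : P → Bool), Part I TC PC c →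
      ∀ m : L → P, (∀ l, l ∉ TC → m l ∉ PC ∧ I l (m l)) →
        (∀ l l', l ∉ TC → l' ∉ TC → m l = m l' → l = l') → Col I

/-- H2: otherwise there is a violator of Hall's condition in which every outer point is on at least
two lines. -/
def ViolStm : Prop :=
  ∀ (P L : Type) [Fintype P] [Fintype L] (I : L → P → Prop), Reg3 I → Conn I → ¬ Col I →
    ∀ (TC : Finset L) (PC : Finset P) (c : P → Bool), Part I TC PC c →
      ∃ S : Finset L, (∀ l ∈ S, l ∉ TC) ∧
        (∀ p, p ∉ PC → (∃ l ∈ S, I l p) → 2 ≤ (S.filter fun l => I l p).card) ∧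
        3 + (Finset.univ.filter fun p => p ∉ PC ∧ (S.filter fun l => I l p).card = 2).card ≤
          ∑ p ∈ PC, (S.filter fun l => I l p).card

/-- H3 (Seymour): a minimal non-two-colourable hypergraph has at least as many lines as points. -/
def SeymourStm : Prop :=
  ∀ (P L : Type) [Fintype P] [Fintype L] (I : L → P → Prop), ¬ Col I →
    (∀ l₀, ∃ c : P → Bool, ∀ l, l ≠ l₀ → ∃ p q, I l p ∧ I l q ∧ c p ≠ c q) →
    (∀ p, ∃ l, I l p) → Fintype.card P ≤ Fintype.card L

/-! ## Critical graphs -/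

/-- Every edge is in exactly three triangles, the triangles are connected, and there is no good
colouring. -/
structure Crit {V : Type} [Fintype V] (G : SimpleGraph V) : Prop where
  three : ∀ x y, G.Adj x y → tr G x y = 3
  conn : ∀ U : Set (Sym2 V), (∃ x y, G.Adj x y ∧ s(x, y) ∈ U) →
    (∀ x y z, G.Adj x y → G.Adj y z → G.Adj x z → s(x, y) ∈ U → s(y, z) ∈ U) →
    ∀ x y, G.Adj x y → s(x, y) ∈ U
  nocol : ∀ c : Sym2 V → Bool, ¬ Good G c

/-- R: the reduction to critical graphs. -/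
def ReduceStm : Prop :=
  ∀ (V : Type) [Fintype V] (G : SimpleGraph V), (∀ x y, G.Adj x y → tr G x y ≤ 3) →
    (∀ c : Sym2 V → Bool, ¬ Good G c) → ∃ H : SimpleGraph V, Crit H

/-- `T` is (the vertex set of) a triangle of `G`. -/
def IsTri {V : Type} (G : SimpleGraph V) (T : Finset V) : Prop :=
  ∃ x y z, G.Adj x y ∧ G.Adj y z ∧ G.Adj x z ∧ T = {x, y, z}

/-- The number of triangles in `S` on the pair `x, y`. -/
noncomputable def dS {V : Type} (S : Finset (Finset V)) (x y : V) : ℕ :=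
  (S.filter fun T => x ∈ T ∧ y ∈ T).card

/-- The number of triangles in `S` on the pair `e`. -/
noncomputable def dE {V : Type} (S : Finset (Finset V)) (e : Sym2 V) : ℕ :=
  (S.filter fun T => ∀ u ∈ e, u ∈ T).card

/-- V: the violator for graphs. -/
def ViolGStm : Prop :=
  ∀ (V : Type) [Fintype V] (G : SimpleGraph V), Crit G →
    ∀ (TC : Finset (Finset V)) (PC : Finset (Sym2 V)) (c : Sym2 V → Bool),
      (∀ T ∈ TC, IsTri G T) → (∀ e ∈ PC, e ∈ G.edgeSet) → PC.Nonempty → TC.card = PC.card →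
      (∀ T ∈ TC, ∃ e ∈ PC, ∃ f ∈ PC, (∀ u ∈ e, u ∈ T) ∧ (∀ u ∈ f, u ∈ T) ∧ c e ≠ c f) →
      ∃ S : Finset (Finset V), (∀ T ∈ S, IsTri G T) ∧ (∀ T ∈ S, T ∉ TC) ∧
        (∀ e ∈ G.edgeSet, e ∉ PC → 0 < dE S e → 2 ≤ dE S e) ∧
        3 + (Finset.univ.filter fun e : Sym2 V => e ∈ G.edgeSet ∧ e ∉ PC ∧ dE S e = 2).card ≤
          ∑ e ∈ PC, dE S e

/-! ## Bridges in links -/

/-- `v y` is a bridge of the link of `x` (the graph induced on the neighbours of `x`): `D` is the
side of `y`. -/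
def Br {V : Type} (G : SimpleGraph V) (x v y : V) : Prop :=
  G.Adj x v ∧ G.Adj x y ∧ G.Adj v y ∧ ∃ D : Finset V, (∀ z ∈ D, G.Adj x z) ∧ y ∈ D ∧ v ∉ D ∧
    ∀ z ∈ D, ∀ w, w ∉ D → G.Adj x w → G.Adj z w → z = y ∧ w = v

/-- `v` is incident with a bridge of the link of `x`. -/
def M {V : Type} (G : SimpleGraph V) (x v : V) : Prop := ∃ y, Br G x v y

/-- `(W, Y)` is a two-regular bipartite subgraph (a union of even cycles) of `G[X]`. -/
def TwoReg {U : Type} (G : SimpleGraph U) (X W : Finset U) (Y : U → U → Prop) (c : U → Bool) :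
    Prop :=
  W.Nonempty ∧ W ⊆ X ∧ (∀ x y, Y x y → Y y x) ∧
    (∀ x y, Y x y → x ∈ W ∧ y ∈ W ∧ G.Adj x y ∧ c x ≠ c y) ∧
    ∀ x ∈ W, (W.filter fun y => Y x y).card = 2

/-- The chord condition for the set `F` of flagged vertices. -/
def CondA {U : Type} (G : SimpleGraph U) (X F : Finset U) : Prop :=
  ∀ (W : Finset U) (Y : U → U → Prop) (c : U → Bool), TwoReg G X W Y c →
    6 ≤ 2 * (W.filter fun x => x ∈ F).card +
      (W.filter fun x => x ∉ F ∧ ∃ y ∈ W, G.Adj x y ∧ ¬ Y x y).card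

/-- Every triangle contains a flagged vertex. -/
def CondT {U : Type} (G : SimpleGraph U) (X F : Finset U) : Prop :=
  ∀ a ∈ X, ∀ b ∈ X, ∀ c ∈ X, G.Adj a b → G.Adj b c → G.Adj a c → a ∈ F ∨ b ∈ F ∨ c ∈ F

/-- A: the chord condition holds in every link, flagged `x` meaning `M G x v`. -/
def LinkAStm : Prop :=
  ∀ (V : Type) [Fintype V] (G : SimpleGraph V), Crit G → ∀ v : V,
    CondA G (Finset.univ.filter fun x => G.Adj v x)
      (Finset.univ.filter fun x => G.Adj v x ∧ M G x v)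

/-- K1: one of the three pairings of a `K₄` on `x, a, b, c` (the pairs `xa`, `bc`). -/
def K1Stm : Prop :=
  ∀ (V : Type) [Fintype V] (G : SimpleGraph V), Crit G → ∀ x a b c : V,
    G.Adj x a → G.Adj x b → G.Adj x c → G.Adj a b → G.Adj a c → G.Adj b c →
    (M G a x ∨ M G b x ∨ M G c x) ∨
    ∃ q, G.Adj a q ∧ q ∉ ({x, a, b, c} : Finset V) ∧
      (∃ y, y ∉ ({x, a, b, c} : Finset V) ∧ Br G b c y) ∧
      (∃ y, y ∉ ({x, a, b, c} : Finset V) ∧ Br G c b y)

/-- K2: two bridges at a triangle of a link give the third one. -/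
def K2Stm : Prop :=
  ∀ (V : Type) [Fintype V] (G : SimpleGraph V), (∀ x y, G.Adj x y → tr G x y = 3) →
    ∀ x a b c : V,
    G.Adj x a → G.Adj x b → G.Adj x c → G.Adj a b → G.Adj a c → G.Adj b c →
    (∃ y, y ∉ ({x, a, b, c} : Finset V) ∧ Br G a b y) →
    (∃ y, y ∉ ({x, a, b, c} : Finset V) ∧ Br G a c y) → M G a x

/-- T: every triangle of a link contains a flagged vertex. -/
def LinkTStm : Prop :=
  ∀ (V : Type) [Fintype V] (G : SimpleGraph V), Crit G → ∀ v : V,
    CondT G (Finset.univ.filter fun x => G.Adj v x)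
      (Finset.univ.filter fun x => G.Adj v x ∧ M G x v)

/-! ## Graph theory inside a finite set `X` of vertices -/

/-- The degree of `x` inside `X`. -/
noncomputable def dg {U : Type} (G : SimpleGraph U) (X : Finset U) (x : U) : ℕ :=
  (X.filter fun y => G.Adj x y).card

/-- Twice the number of edges inside `X`. -/
noncomputable def ds {U : Type} (G : SimpleGraph U) (X : Finset U) : ℕ := ∑ x ∈ X, dg G X x

/-- `x 0, …, x (n-1)` is a cycle inside `X`. -/
def Cyc {U : Type} (G : SimpleGraph U) (X : Finset U) (n : ℕ) (x : ℕ → U) : Prop :=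
  3 ≤ n ∧ (∀ i < n, x i ∈ X) ∧ (∀ i < n, ∀ j < n, x i = x j → i = j) ∧
    (∀ i, i + 1 < n → G.Adj (x i) (x (i + 1))) ∧ G.Adj (x (n - 1)) (x 0)

/-- There is an even cycle inside `X`. -/
def EvenCyc {U : Type} (G : SimpleGraph U) (X : Finset U) : Prop :=
  ∃ n x, Cyc G X n x ∧ Even n

/-- G1 (theta): two cycles that meet but use different edges give an even cycle. -/
def ThetaStm : Prop :=
  ∀ (U : Type) (G : SimpleGraph U) (X : Finset U), (∀ u ∈ X, dg G X u ≤ 3) →
    ∀ (n m : ℕ) (x y : ℕ → U), Cyc G X n x → Cyc G X m y →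
      (∃ i < n, ∃ j < m, x i = y j) →
      (∃ j < m, ∀ i < n, s(y j, y ((j + 1) % m)) ≠ s(x i, x ((i + 1) % n))) → EvenCyc G X

/-- G2: without cycles there are at most `|X| - 1` edges. -/
def ForestStm : Prop :=
  ∀ (U : Type) (G : SimpleGraph U) (X : Finset U), X.Nonempty → (∀ n x, ¬ Cyc G X n x) →
    ds G X + 2 ≤ 2 * X.card

/-- G3: without even cycles there are many disjoint cycles. -/
def PackStm : Prop :=
  ∀ (U : Type) (G : SimpleGraph U) (X : Finset U), X.Nonempty → (∀ u ∈ X, dg G X u ≤ 3) →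
    ¬ EvenCyc G X →
    ∃ cs : Finset (Finset U), (∀ C ∈ cs, ∃ n x, Cyc G X n x ∧ C = (Finset.range n).image x) ∧
      (∀ C ∈ cs, ∀ D ∈ cs, C ≠ D → Disjoint C D) ∧ ds G X + 2 ≤ 2 * X.card + 2 * cs.card

/-- G4: a shortest even cycle has at most one chord or four vertices. -/
def ShortStm : Prop :=
  ∀ (U : Type) (G : SimpleGraph U) (X : Finset U), (∀ u ∈ X, dg G X u ≤ 3) → EvenCyc G X →
    ∃ (W : Finset U) (Y : U → U → Prop) (c : U → Bool), TwoReg G X W Y c ∧
      ((W.filter fun x => ∃ y ∈ W, G.Adj x y ∧ ¬ Y x y).card ≤ 2 ∨ W.card = 4)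

/-- G5: the base lemma. -/
def BaseStm : Prop :=
  ∀ (U : Type) (G : SimpleGraph U) (X F : Finset U), X.Nonempty →
    (∀ u ∈ X, dg G X u = 2 ∨ dg G X u = 3) → CondA G X F → CondT G X F →
    ((∀ u ∈ X, dg G X u = 3) → 1 ≤ (X.filter fun u => u ∈ F).card) ∧
    ((∃ u ∈ X, dg G X u = 2) →
      4 ≤ (X.filter fun u => u ∈ F).card + (X.filter fun u => dg G X u = 2).card)

/-- `x` is incident with a bridge `x y` of `G[X]`. -/
def BrI {U : Type} (G : SimpleGraph U) (X : Finset U) (x : U) : Prop :=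
  ∃ y ∈ X, G.Adj x y ∧ ∃ D : Finset U, D ⊆ X ∧ y ∈ D ∧ x ∉ D ∧
    ∀ z ∈ D, ∀ w ∈ X, w ∉ D → G.Adj z w → z = y ∧ w = x

/-- G6: in a cubic graph there are more flagged vertices than bridge-incident vertices. -/
def CubicStm : Prop :=
  ∀ (U : Type) (G : SimpleGraph U) (X F : Finset U), X.Nonempty → (∀ u ∈ X, dg G X u = 3) →
    CondA G X F → CondT G X F →
    (X.filter fun u => BrI G X u).card < (X.filter fun u => u ∈ F).card

end TriRam
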