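import Mathlib
import Pool.Agent.R666.TR3.Stms

/-!
# MP_0ae2e1_co, piece G6: in a cubic graph there are more flagged vertices than bridge-incident ones
-/

namespace TriRam.G6

open Classical

variable {U : Type} {G : SimpleGraph U} {X F : Finset U}

/-- `x y` is a bridge of `G[X]` -/
def Bg (G : SimpleGraph U) (X : Finset U) (x y : U) : Prop :=
  G.Adj x y ∧ ∃ D : Finset U, D ⊆ X ∧ y ∈ D ∧ x ∉ D ∧
    ∀ z ∈ D, ∀ w ∈ X, w ∉ D → G.Adj z w → z = y ∧ w = x

lemma Bg.symm {x y : U} (hx : x ∈ X) (h : Bg G X x y) : Bg G X y x := by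
  obtain ⟨hadj, D, hD, hy, hx', hl⟩ := h
  refine ⟨hadj.symm, X \ D, Finset.sdiff_subset, Finset.mem_sdiff.2 ⟨hx, hx'⟩,
    fun h => (Finset.mem_sdiff.1 h).2 hy, ?_⟩
  intro z hz w hw hwD hzw
  rw [Finset.mem_sdiff] at hz hwD
  push Not at hwD
  obtain ⟨h1, h2⟩ := hl w (hwD hw) z hz.1 hz.2 hzw.symm
  exact ⟨h2, h1⟩

lemma brI_iff {x : U} : BrI G X x ↔ ∃ y ∈ X, Bg G X x y := Iff.rfl

/-- the number of edges from `z` leaving `D` -/
noncomputable def out (G : SimpleGraph U) (X D : Finset U) (z : U) : ℕ :=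
  (X.filter fun w => w ∉ D ∧ G.Adj z w).card

/-- the number of edges leaving `D` -/
noncomputable def kk (G : SimpleGraph U) (X D : Finset U) : ℕ := ∑ z ∈ D, out G X D z

/-- the bound -/
def phi (k : ℕ) : ℤ := if k = 0 then 1 else 4 - 2 * (k : ℤ)

lemma phi_add {k₁ k₂ k : ℕ} (h1 : 1 ≤ k₁) (h2 : 1 ≤ k₂) (h : k₁ + k₂ = k + 2) :
    phi k ≤ phi k₁ + phi k₂ := by
  have e1 : phi k₁ = 4 - 2 * (k₁ : ℤ) := if_neg (by omega)
  have e2 : phi k₂ = 4 - 2 * (k₂ : ℤ) := if_neg (by omega)
  rw [e1, e2]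
  unfold phi
  split_ifs <;> omega

lemma phi_three {k : ℕ} : phi (k + 3) + 1 ≤ phi k := by
  unfold phi
  rw [if_neg (by omega)]
  split_ifs <;> push_cast <;> omega

/-- degrees: inner and leaving edges -/
lemma deg_split {D : Finset U} (hD : D ⊆ X) (z : U) : dg G X z = dg G D z + out G X D z := by
  unfold dg out
  have h : X.filter (fun y => G.Adj z y) =
      D.filter (fun y => G.Adj z y) ∪ X.filter (fun w => w ∉ D ∧ G.Adj z w) := by
    ext y
    simp only [Finset.mem_filter, Finset.mem_union]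
    constructor
    · rintro ⟨h1, h2⟩
      by_cases h3 : y ∈ D
      · exact Or.inl ⟨h3, h2⟩
      · exact Or.inr ⟨h1, h3, h2⟩
    · rintro (⟨h1, h2⟩ | ⟨h1, _, h2⟩)
      · exact ⟨hD h1, h2⟩
      · exact ⟨h1, h2⟩
  rw [h, Finset.card_union_of_disjoint]
  rw [Finset.disjoint_left]
  intro y h1 h2
  exact (Finset.mem_filter.1 h2).2.1 (Finset.mem_filter.1 h1).1

/-- the claim for `D` -/
def Claim (G : SimpleGraph U) (X F D : Finset U) : Prop :=
  phi (kk G X D) + ((D.filter fun u => BrI G X u).card : ℤ) ≤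
    ((D.filter fun u => u ∈ F).card : ℤ)

/-- (1) cutting at an inner bridge -/
lemma case1 {D : Finset U} (hD : D ⊆ X)
    (hleave : ∀ z ∈ D, ∀ w ∈ X, w ∉ D → G.Adj z w → Bg G X z w)
    (ih : ∀ D' : Finset U, D'.card < D.card → D' ⊆ X → D'.Nonempty →
      (∀ z ∈ D', ∀ w ∈ X, w ∉ D' → G.Adj z w → Bg G X z w) → Claim G X F D')
    {p q : U} (hp : p ∈ D) (hq : q ∈ D) (hpq : Bg G X p q) : Claim G X F D := by
  obtain ⟨hadj, E, hE, hqE, hpE, hl⟩ := id hpq
  have hqp : Bg G X q p := hpq.symm (hD hp)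
  obtain ⟨D1, hD1⟩ : ∃ D1, D1 = D ∩ E := ⟨_, rfl⟩
  obtain ⟨D2, hD2⟩ : ∃ D2, D2 = D \ E := ⟨_, rfl⟩
  have m1 : ∀ x, x ∈ D1 ↔ x ∈ D ∧ x ∈ E := fun x => by rw [hD1, Finset.mem_inter]
  have m2 : ∀ x, x ∈ D2 ↔ x ∈ D ∧ x ∉ E := fun x => by rw [hD2, Finset.mem_sdiff]
  have hdisj : Disjoint D1 D2 := by
    rw [Finset.disjoint_left]
    intro x h1 h2
    exact ((m2 x).1 h2).2 ((m1 x).1 h1).2
  have hun : D = D1 ∪ D2 := by
    ext x
    rw [Finset.mem_union, m1, m2]
    tauto
  have s1 : D1 ⊂ D := by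
    refine ⟨fun x h => ((m1 x).1 h).1, fun h => ?_⟩
    exact hpE ((m1 p).1 (h hp)).2
  have s2 : D2 ⊂ D := by
    refine ⟨fun x h => ((m2 x).1 h).1, fun h => ?_⟩
    exact ((m2 q).1 (h hq)).2 hqE
  have c1 : Claim G X F D1 := by
    apply ih D1 (Finset.card_lt_card s1) (s1.1.trans hD) ⟨q, (m1 q).2 ⟨hq, hqE⟩⟩
    intro z hz w hw hwD hzw
    obtain ⟨hz1, hz2⟩ := (m1 z).1 hz
    by_cases hwD' : w ∈ D
    · have hwE : w ∉ E := fun h => hwD ((m1 w).2 ⟨hwD', h⟩)
      obtain ⟨e1, e2⟩ := hl z hz2 w hw hwE hzw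
      rw [e1, e2]; exact hqp
    · exact hleave z hz1 w hw hwD' hzw
  have c2 : Claim G X F D2 := by
    apply ih D2 (Finset.card_lt_card s2) (s2.1.trans hD) ⟨p, (m2 p).2 ⟨hp, hpE⟩⟩
    intro z hz w hw hwD hzw
    obtain ⟨hz1, hz2⟩ := (m2 z).1 hz
    by_cases hwD' : w ∈ D
    · have hwE : w ∈ E := by
        by_contra h
        exact hwD ((m2 w).2 ⟨hwD', h⟩)
      obtain ⟨e1, e2⟩ := hl w hwE z (hD hz1) hz2 hzw.symm
      rw [e1, e2]; exact hpq
    · exact hleave z hz1 w hw hwD' hzw
  -- counting leaving edges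
  have o1 : ∀ z ∈ D1, out G X D1 z = out G X D z + (if z = q then 1 else 0) := by
    intro z hz
    obtain ⟨hz1, hz2⟩ := (m1 z).1 hz
    have h : X.filter (fun w => w ∉ D1 ∧ G.Adj z w) =
        X.filter (fun w => w ∉ D ∧ G.Adj z w) ∪ (if z = q then {p} else ∅) := by
      ext w
      rw [Finset.mem_union, Finset.mem_filter, Finset.mem_filter]
      constructor
      · rintro ⟨h1, h2, h3⟩
        by_cases hwD : w ∈ D
        · right
          have hwE : w ∉ E := fun h => h2 ((m1 w).2 ⟨hwD, h⟩)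
          obtain ⟨e1, e2⟩ := hl z hz2 w h1 hwE h3
          rw [if_pos e1, Finset.mem_singleton]; exact e2
        · left; exact ⟨h1, hwD, h3⟩
      · rintro (⟨h1, h2, h3⟩ | h1)
        · exact ⟨h1, fun h => h2 ((m1 w).1 h).1, h3⟩
        · split_ifs at h1 with hzq
          · rw [Finset.mem_singleton] at h1
            rw [h1, hzq]
            exact ⟨hD hp, fun h => hpE ((m1 p).1 h).2, hadj.symm⟩
          · exact absurd h1 (Finset.notMem_empty w)
    unfold out
    rw [h, Finset.card_union_of_disjoint]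
    · split_ifs <;> simp
    · rw [Finset.disjoint_left]
      intro w h1 h2
      split_ifs at h2 with hzq
      · rw [Finset.mem_singleton] at h2
        rw [h2] at h1
        exact (Finset.mem_filter.1 h1).2.1 hp
      · exact absurd h2 (Finset.notMem_empty w)
  have o2 : ∀ z ∈ D2, out G X D2 z = out G X D z + (if z = p then 1 else 0) := by
    intro z hz
    obtain ⟨hz1, hz2⟩ := (m2 z).1 hz
    have h : X.filter (fun w => w ∉ D2 ∧ G.Adj z w) =
        X.filter (fun w => w ∉ D ∧ G.Adj z w) ∪ (if z = p then {q} else ∅) := by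
      ext w
      rw [Finset.mem_union, Finset.mem_filter, Finset.mem_filter]
      constructor
      · rintro ⟨h1, h2, h3⟩
        by_cases hwD : w ∈ D
        · right
          have hwE : w ∈ E := by
            by_contra h
            exact h2 ((m2 w).2 ⟨hwD, h⟩)
          obtain ⟨e1, e2⟩ := hl w hwE z (hD hz1) hz2 h3.symm
          rw [if_pos e2, Finset.mem_singleton]; exact e1
        · left; exact ⟨h1, hwD, h3⟩
      · rintro (⟨h1, h2, h3⟩ | h1)
        · exact ⟨h1, fun h => h2 ((m2 w).1 h).1, h3⟩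
        · split_ifs at h1 with hzp
          · rw [Finset.mem_singleton] at h1
            rw [h1, hzp]
            exact ⟨hD hq, fun h => ((m2 q).1 h).2 hqE, hadj⟩
          · exact absurd h1 (Finset.notMem_empty w)
    unfold out
    rw [h, Finset.card_union_of_disjoint]
    · split_ifs <;> simp
    · rw [Finset.disjoint_left]
      intro w h1 h2
      split_ifs at h2 with hzp
      · rw [Finset.mem_singleton] at h2
        rw [h2] at h1
        exact (Finset.mem_filter.1 h1).2.1 hq
      · exact absurd h2 (Finset.notMem_empty w)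
  have k1 : kk G X D1 = ∑ z ∈ D1, out G X D z + 1 := by
    unfold kk
    rw [Finset.sum_congr rfl o1, Finset.sum_add_distrib, Finset.sum_ite_eq' D1 q,
      if_pos ((m1 q).2 ⟨hq, hqE⟩)]
  have k2 : kk G X D2 = ∑ z ∈ D2, out G X D z + 1 := by
    unfold kk
    rw [Finset.sum_congr rfl o2, Finset.sum_add_distrib, Finset.sum_ite_eq' D2 p,
      if_pos ((m2 p).2 ⟨hp, hpE⟩)]
  have k0 : kk G X D = ∑ z ∈ D1, out G X D z + ∑ z ∈ D2, out G X D z := by
    unfold kk
    conv_lhs => rw [hun]
    rw [Finset.sum_union hdisj]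
    rw [← hun]
  have hphi := phi_add (k₁ := kk G X D1) (k₂ := kk G X D2) (k := kk G X D) (by omega) (by omega)
    (by omega)
  have f1 : (D.filter fun u => u ∈ F).card = (D1.filter fun u => u ∈ F).card +
      (D2.filter fun u => u ∈ F).card := by
    conv_lhs => rw [hun]
    rw [Finset.filter_union, Finset.card_union_of_disjoint]
    exact Finset.disjoint_filter_filter hdisj
  have f2 : (D.filter fun u => BrI G X u).card = (D1.filter fun u => BrI G X u).card +
      (D2.filter fun u => BrI G X u).card := by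
    conv_lhs => rw [hun]
    rw [Finset.filter_union, Finset.card_union_of_disjoint]
    exact Finset.disjoint_filter_filter hdisj
  unfold Claim at c1 c2 ⊢
  rw [f1, f2]
  push_cast
  linarith

/-- (2) removing a vertex without inner edges -/
lemma case2 (hdeg : ∀ u ∈ X, dg G X u = 3) {D : Finset U} (hD : D ⊆ X)
    (hleave : ∀ z ∈ D, ∀ w ∈ X, w ∉ D → G.Adj z w → Bg G X z w)
    (ih : ∀ D' : Finset U, D'.card < D.card → D' ⊆ X → D'.Nonempty →
      (∀ z ∈ D', ∀ w ∈ X, w ∉ D' → G.Adj z w → Bg G X z w) → Claim G X F D')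
    {z : U} (hz : z ∈ D) (hno : ∀ w ∈ D, ¬ G.Adj z w) : Claim G X F D := by
  have hin : dg G D z = 0 := by
    unfold dg
    rw [Finset.card_eq_zero, Finset.filter_eq_empty_iff]
    exact fun w hw => hno w hw
  have hout : out G X D z = 3 := by
    have := deg_split (G := G) hD z
    rw [hdeg z (hD hz), hin] at this
    omega
  obtain ⟨D', hD'⟩ : ∃ D', D' = D.erase z := ⟨_, rfl⟩
  have m' : ∀ x, x ∈ D' ↔ x ≠ z ∧ x ∈ D := fun x => by rw [hD', Finset.mem_erase]
  have hins : D = insert z D' := by rw [hD', Finset.insert_erase hz]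
  have hzD' : z ∉ D' := fun h => ((m' z).1 h).1 rfl
  have hkk : kk G X D = kk G X D' + 3 := by
    have e1 : kk G X D = out G X D z + ∑ x ∈ D', out G X D x := by
      unfold kk
      conv_lhs => rw [hins]
      rw [Finset.sum_insert hzD', ← hins]
    rw [e1, hout, add_comm]
    congr 1
    unfold kk
    apply Finset.sum_congr rfl
    intro x hx
    unfold out
    congr 1
    apply Finset.filter_congr
    intro w _
    constructor
    · rintro ⟨h1, h2⟩
      exact ⟨fun h => h1 ((m' w).1 h).2, h2⟩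
    · rintro ⟨h1, h2⟩
      refine ⟨fun h => h1 ((m' w).2 ⟨?_, h⟩), h2⟩
      rintro rfl
      exact hno x ((m' x).1 hx).2 h2.symm
  have hF : ((D'.filter fun u => u ∈ F).card : ℤ) ≤ ((D.filter fun u => u ∈ F).card : ℤ) := by
    have : (D'.filter fun u => u ∈ F).card ≤ (D.filter fun u => u ∈ F).card := by
      apply Finset.card_le_card
      apply Finset.filter_subset_filter
      rw [hD']; exact Finset.erase_subset _ _
    exact_mod_cast this
  have hB : ((D.filter fun u => BrI G X u).card : ℤ) ≤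
      ((D'.filter fun u => BrI G X u).card : ℤ) + 1 := by
    have : (D.filter fun u => BrI G X u).card ≤ (D'.filter fun u => BrI G X u).card + 1 := by
      rw [hins]
      rw [Finset.filter_insert]
      split_ifs
      · exact Finset.card_insert_le _ _
      · omega
    exact_mod_cast this
  by_cases hne : D'.Nonempty
  · have c1 : Claim G X F D' := by
      apply ih D' (by rw [hD']; exact Finset.card_erase_lt_of_mem hz)
        (fun x hx => hD ((m' x).1 hx).2) hne
      intro x hx w hw hwD hxw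
      apply hleave x ((m' x).1 hx).2 w hw _ hxw
      intro hwD2
      by_cases hwz : w = z
      · rw [hwz] at hxw
        exact hno x ((m' x).1 hx).2 hxw.symm
      · exact hwD ((m' w).2 ⟨hwz, hwD2⟩)
    have hphi := phi_three (k := kk G X D')
    unfold Claim at c1 ⊢
    rw [hkk]
    linarith
  · rw [Finset.not_nonempty_iff_eq_empty] at hne
    unfold Claim
    have e1 : kk G X D = 3 := by rw [hkk, hne]; simp [kk]
    have e2 : ((D'.filter fun u => BrI G X u).card : ℤ) = 0 := by rw [hne]; simp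
    have e3 : phi 3 = -2 := by decide
    rw [e1, e3]
    have e4 : (0 : ℤ) ≤ ((D.filter fun u => u ∈ F).card : ℤ) := Nat.cast_nonneg _
    linarith

/-- (3) the base case -/
lemma case3 (hBase : BaseStm) (hdeg : ∀ u ∈ X, dg G X u = 3) (hA : CondA G X F)
    (hT : CondT G X F) {D : Finset U} (hD : D ⊆ X) (hne : D.Nonempty)
    (hleave : ∀ z ∈ D, ∀ w ∈ X, w ∉ D → G.Adj z w → Bg G X z w)
    (hin : ∀ z ∈ D, ∃ w ∈ D, G.Adj z w) (hnb : ∀ p ∈ D, ∀ q ∈ D, ¬ Bg G X p q) :
    Claim G X F D := by
  -- at most one leaving edge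
  have hone : ∀ z ∈ D, out G X D z ≤ 1 := by
    intro z hz
    by_contra hcon
    push Not at hcon
    obtain ⟨w1, hw1, w2, hw2, hw12⟩ := Finset.one_lt_card.1 hcon
    rw [Finset.mem_filter] at hw1 hw2
    obtain ⟨z', hz', hzz'⟩ := hin z hz
    obtain ⟨a1, E1, hE1, hwE1, hzE1, hl1⟩ := hleave z hz w1 hw1.1 hw1.2.1 hw1.2.2
    obtain ⟨a2, E2, hE2, hwE2, hzE2, hl2⟩ := hleave z hz w2 hw2.1 hw2.2.1 hw2.2.2
    have hn1 : w1 ≠ z' := fun h => hw1.2.1 (h ▸ hz')
    have hn2 : w2 ≠ z' := fun h => hw2.2.1 (h ▸ hz')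
    have hnb3 : ∀ y ∈ X, G.Adj z y → y = w1 ∨ y = w2 ∨ y = z' := by
      intro y hy hzy
      by_contra hc
      push Not at hc
      have hsub : ({y, w1, w2, z'} : Finset U) ⊆ X.filter (fun y => G.Adj z y) := by
        intro u hu
        simp only [Finset.mem_insert, Finset.mem_singleton] at hu
        rw [Finset.mem_filter]
        rcases hu with rfl | rfl | rfl | rfl
        · exact ⟨hy, hzy⟩
        · exact ⟨hw1.1, a1⟩
        · exact ⟨hw2.1, a2⟩
        · exact ⟨hD hz', hzz'⟩
      have h4 := Finset.card_le_card hsub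
      have h5 : ({y, w1, w2, z'} : Finset U).card = 4 := by
        rw [Finset.card_insert_of_notMem, Finset.card_insert_of_notMem,
          Finset.card_insert_of_notMem, Finset.card_singleton]
        · simp [hn2]
        · simp [hw12, hn1]
        · simp [hc.1, hc.2.1, hc.2.2]
      have h6 : (X.filter (fun y => G.Adj z y)).card = 3 := hdeg z (hD hz)
      omega
    apply hnb z hz z' hz'
    refine ⟨hzz', X.filter (fun y => y ∉ E1 ∧ y ∉ E2 ∧ y ≠ z), Finset.filter_subset _ _, ?_, ?_, ?_⟩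
    · rw [Finset.mem_filter]
      refine ⟨hD hz', ?_, ?_, fun h => (h ▸ hzz').ne rfl⟩
      · intro h
        exact hn1 (hl1 z' h z (hD hz) hzE1 hzz'.symm).1.symm
      · intro h
        exact hn2 (hl2 z' h z (hD hz) hzE2 hzz'.symm).1.symm
    · rw [Finset.mem_filter]
      rintro ⟨_, _, _, h⟩
      exact h rfl
    · intro y hy w hw hwD hyw
      rw [Finset.mem_filter] at hy hwD
      obtain ⟨hyX, hy1, hy2, hy3⟩ := hy
      by_cases hwF1 : w ∈ E1
      · exact absurd (hl1 w hwF1 y hyX hy1 hyw.symm).2 hy3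
      · by_cases hwF2 : w ∈ E2
        · exact absurd (hl2 w hwF2 y hyX hy2 hyw.symm).2 hy3
        · have hwz : w = z := by
            by_contra h
            exact hwD ⟨hw, hwF1, hwF2, h⟩
          refine ⟨?_, hwz⟩
          rw [hwz] at hyw
          rcases hnb3 y hyX hyw.symm with h | h | h
          · exfalso
            rw [h] at hy1
            exact hy1 hwE1
          · exfalso
            rw [h] at hy2
            exact hy2 hwE2
          · exact h
  have hbr : ∀ z ∈ D, (BrI G X z ↔ out G X D z = 1) := by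
    intro z hz
    constructor
    · intro h
      obtain ⟨y, hy, hzy⟩ := brI_iff.1 h
      have hyD : y ∉ D := fun h => hnb z hz y h hzy
      have h1 : 0 < out G X D z := by
        unfold out
        rw [Finset.card_pos]
        exact ⟨y, Finset.mem_filter.2 ⟨hy, hyD, hzy.1⟩⟩
      have := hone z hz
      omega
    · intro h
      have h1 : 0 < out G X D z := by omega
      unfold out at h1
      rw [Finset.card_pos] at h1
      obtain ⟨y, hy⟩ := h1
      rw [Finset.mem_filter] at hy
      exact brI_iff.2 ⟨y, hy.1, hleave z hz y hy.1 hy.2.1 hy.2.2⟩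
  have hdg : ∀ z ∈ D, dg G D z + out G X D z = 3 := by
    intro z hz
    have := deg_split (G := G) hD z
    rw [hdeg z (hD hz)] at this
    exact this.symm
  have hdg23 : ∀ z ∈ D, dg G D z = 2 ∨ dg G D z = 3 := by
    intro z hz
    have h1 := hone z hz
    have h2 := hdg z hz
    omega
  have hkB : kk G X D = (D.filter fun u => BrI G X u).card := by
    unfold kk
    rw [Finset.card_filter]
    apply Finset.sum_congr rfl
    intro z hz
    have h1 := hone z hz
    by_cases h : BrI G X z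
    · rw [if_pos h]; exact (hbr z hz).1 h
    · rw [if_neg h]
      have h2 : out G X D z ≠ 1 := fun h3 => h ((hbr z hz).2 h3)
      omega
  have hk2 : (D.filter fun u => dg G D u = 2).card = (D.filter fun u => BrI G X u).card := by
    congr 1
    apply Finset.filter_congr
    intro z hz
    rw [hbr z hz]
    have := hdg z hz
    omega
  have hA' : CondA G D F := by
    intro W Y c h
    obtain ⟨h1, h2, h3, h4, h5⟩ := h
    exact hA W Y c ⟨h1, h2.trans hD, h3, h4, h5⟩
  have hT' : CondT G D F := fun a ha b hb c hc => hT a (hD ha) b (hD hb) c (hD hc)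
  obtain ⟨b1, b2⟩ := hBase U G D F hne hdg23 hA' hT'
  unfold Claim
  rw [hkB]
  obtain ⟨K, hK⟩ : ∃ K, K = (D.filter fun u => BrI G X u).card := ⟨_, rfl⟩
  rw [← hK] at hkB hk2 ⊢
  by_cases hK0 : K = 0
  · have h3 : ∀ u ∈ D, dg G D u = 3 := by
      intro u hu
      rcases hdg23 u hu with h | h
      · exfalso
        have : 0 < (D.filter fun u => dg G D u = 2).card :=
          Finset.card_pos.2 ⟨u, Finset.mem_filter.2 ⟨hu, h⟩⟩
        omega
      · exact h
    have h4 := b1 h3
    rw [hK0]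
    unfold phi
    simp only [if_true]
    have : (1 : ℤ) ≤ ((D.filter fun u => u ∈ F).card : ℤ) := by exact_mod_cast h4
    simpa using this
  · have h3 : ∃ u ∈ D, dg G D u = 2 := by
      have : 0 < (D.filter fun u => dg G D u = 2).card := by omega
      obtain ⟨u, hu⟩ := Finset.card_pos.1 this
      exact ⟨u, (Finset.mem_filter.1 hu).1, (Finset.mem_filter.1 hu).2⟩
    have h4 := b2 h3
    rw [hk2] at h4
    unfold phi
    rw [if_neg hK0]
    have h5 : (4 : ℤ) ≤ ((D.filter fun u => u ∈ F).card : ℤ) + (K : ℤ) := by exact_mod_cast h4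
    linarith

lemma claim_all (hBase : BaseStm) (hdeg : ∀ u ∈ X, dg G X u = 3) (hA : CondA G X F)
    (hT : CondT G X F) : ∀ (n : ℕ) (D : Finset U), D.card = n → D ⊆ X → D.Nonempty →
      (∀ z ∈ D, ∀ w ∈ X, w ∉ D → G.Adj z w → Bg G X z w) → Claim G X F D := by
  intro n
  induction n using Nat.strong_induction_on with
  | _ n ihn =>
    intro D hn hD hne hleave
    have ih : ∀ D' : Finset U, D'.card < D.card → D' ⊆ X → D'.Nonempty →
        (∀ z ∈ D', ∀ w ∈ X, w ∉ D' → G.Adj z w → Bg G X z w) → Claim G X F D' := by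
      intro D' h1 h2 h3 h4
      exact ihn D'.card (by omega) D' rfl h2 h3 h4
    by_cases h1 : ∃ p ∈ D, ∃ q ∈ D, Bg G X p q
    · obtain ⟨p, hp, q, hq, hpq⟩ := h1
      exact case1 hD hleave ih hp hq hpq
    · push Not at h1
      by_cases h2 : ∃ z ∈ D, ∀ w ∈ D, ¬ G.Adj z w
      · obtain ⟨z, hz, hno⟩ := h2
        exact case2 hdeg hD hleave ih hz hno
      · push Not at h2
        exact case3 hBase hdeg hA hT hD hne hleave h2 h1

theorem main : BaseStm → CubicStm := by
  intro hBase U G X F hne hdeg hA hT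
  have h := claim_all hBase hdeg hA hT X.card X rfl (Finset.Subset.refl X) hne
    (fun z _ w hw hwX => absurd hw hwX)
  have hk : kk G X X = 0 := by
    unfold kk
    apply Finset.sum_eq_zero
    intro z _
    unfold out
    rw [Finset.card_eq_zero, Finset.filter_eq_empty_iff]
    intro w hw h
    exact h.1 hw
  unfold Claim at h
  rw [hk] at h
  have e : phi 0 = 1 := by decide
  rw [e] at h
  have : (X.filter fun u => BrI G X u).card + 1 ≤ (X.filter fun u => u ∈ F).card := by
    have h' : (((X.filter fun u => BrI G X u).card + 1 : ℕ) : ℤ) ≤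
        ((X.filter fun u => u ∈ F).card : ℤ) := by
      push_cast; linarith
    exact_mod_cast h'
  omega

end TriRam.G6
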