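import Pool.Agent.R666.TR3.Stms

/-! TR3-K1: violator at a `K₄`. -/

namespace TriRam.K1

open Classical

variable {V : Type} [Fintype V] {G : SimpleGraph V} {S : Finset (Finset V)}

/-- third vertices of the triangles of `S` on the pair `p, q` -/
noncomputable def DD (G : SimpleGraph V) (S : Finset (Finset V)) (p q : V) : Finset V :=
  Finset.univ.filter fun r => G.Adj p r ∧ G.Adj q r ∧ ({p, q, r} : Finset V) ∈ S

omit [Fintype V] in
lemma rot12 (p q r : V) : ({p, q, r} : Finset V) = {q, p, r} := by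
  ext z; simp only [Finset.mem_insert, Finset.mem_singleton]; tauto

omit [Fintype V] in
lemma rot23 (p q r : V) : ({p, q, r} : Finset V) = {p, r, q} := by
  ext z; simp only [Finset.mem_insert, Finset.mem_singleton]; tauto

lemma mem_DD {p q r : V} :
    r ∈ DD G S p q ↔ G.Adj p r ∧ G.Adj q r ∧ ({p, q, r} : Finset V) ∈ S := by
  simp [DD]

lemma dE_eq (hS : ∀ T ∈ S, IsTri G T) {p q : V} (hpq : p ≠ q) :
    dE S s(p, q) = (DD G S p q).card := by
  symm
  unfold dE
  refine Finset.card_bij (fun r _ => ({p, q, r} : Finset V)) ?_ ?_ ?_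
  · intro r hr
    rw [mem_DD] at hr
    refine (@Finset.mem_filter _ (fun T : Finset V => ∀ u ∈ s(p, q), u ∈ T)
      (fun _ => Classical.propDecidable _) S _).mpr ⟨hr.2.2, ?_⟩
    intro u hu
    rw [Sym2.mem_iff] at hu
    rcases hu with rfl | rfl <;> simp
  · intro r hr r' hr' h
    rw [mem_DD] at hr hr'
    have h1 : r ∈ ({p, q, r'} : Finset V) := by rw [← h]; simp
    simp only [Finset.mem_insert, Finset.mem_singleton] at h1
    rcases h1 with h1 | h1 | h1
    · exact absurd h1.symm hr.1.ne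
    · exact absurd h1.symm hr.2.1.ne
    · exact h1
  · intro T hT
    obtain ⟨hTS, hT2⟩ := (@Finset.mem_filter _ (fun T : Finset V => ∀ u ∈ s(p, q), u ∈ T)
      (fun _ => Classical.propDecidable _) S _).mp hT
    have hp : p ∈ T := hT2 p (Sym2.mem_mk_left _ _)
    have hq : q ∈ T := hT2 q (Sym2.mem_mk_right _ _)
    obtain ⟨x, y, z, hxy, hyz, hxz, rfl⟩ := hS T hTS
    simp only [Finset.mem_insert, Finset.mem_singleton] at hp hq
    have key : ∃ r, G.Adj p r ∧ G.Adj q r ∧ ({p, q, r} : Finset V) = {x, y, z} := by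
      rcases hp with rfl | rfl | rfl <;> rcases hq with rfl | rfl | rfl
      · exact absurd rfl hpq
      · exact ⟨z, hxz, hyz, rfl⟩
      · exact ⟨y, hxy, hyz.symm, rot23 _ _ _⟩
      · exact ⟨z, hyz, hxz, rot12 _ _ _⟩
      · exact absurd rfl hpq
      · exact ⟨x, hxy.symm, hxz.symm, by rw [rot23, rot12]⟩
      · exact ⟨y, hyz.symm, hxy, by rw [rot12, rot23]⟩
      · exact ⟨x, hxz.symm, hxy.symm, by rw [rot12, rot23, rot12]⟩
      · exact absurd rfl hpq
    obtain ⟨r, h1, h2, h3⟩ := key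
    exact ⟨r, mem_DD.mpr ⟨h1, h2, h3 ▸ hTS⟩, h3⟩

lemma full (hS : ∀ T ∈ S, IsTri G T) {p q : V} (h3 : tr G p q = 3) (hpq : p ≠ q)
    (hd : dE S s(p, q) = 3) {r : V} (h1 : G.Adj p r) (h2 : G.Adj q r) :
    ({p, q, r} : Finset V) ∈ S := by
  rw [dE_eq hS hpq] at hd
  have hsub : DD G S p q ⊆ Finset.univ.filter fun z => G.Adj p z ∧ G.Adj q z := by
    intro z hz
    rw [mem_DD] at hz
    simp [hz.1, hz.2.1]
  have heq := Finset.eq_of_subset_of_card_le hsub (by
    have : (Finset.univ.filter fun z => G.Adj p z ∧ G.Adj q z).card = 3 := h3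
    omega)
  have : r ∈ DD G S p q := by rw [heq]; simp [h1, h2]
  exact (mem_DD.mp this).2.2

lemma ne_zero_of (hS : ∀ T ∈ S, IsTri G T) {p q r : V} (hpq : p ≠ q) (h1 : G.Adj p r)
    (h2 : G.Adj q r) (h : ({p, q, r} : Finset V) ∈ S) : dE S s(p, q) ≠ 0 := by
  rw [dE_eq hS hpq]
  exact Finset.card_ne_zero.mpr ⟨r, mem_DD.mpr ⟨h1, h2, h⟩⟩

/-- four common neighbours cannot be different -/
lemma card3 {p q : V} (h3 : tr G p q = 3) {u w r z : V} (huw : u ≠ w) (hu1 : G.Adj p u)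
    (hu2 : G.Adj q u) (hw1 : G.Adj p w) (hw2 : G.Adj q w) (hr1 : G.Adj p r) (hr2 : G.Adj q r)
    (hz1 : G.Adj p z) (hz2 : G.Adj q z) (hru : r ≠ u) (hrw : r ≠ w) (hzu : z ≠ u) (hzw : z ≠ w) :
    z = r := by
  by_contra hne
  have hsub : ({u, w, r, z} : Finset V) ⊆ Finset.univ.filter fun z => G.Adj p z ∧ G.Adj q z := by
    intro t ht
    simp only [Finset.mem_insert, Finset.mem_singleton] at ht
    rcases ht with rfl | rfl | rfl | rfl <;> simp [*]
  have hcard : ({u, w, r, z} : Finset V).card = 4 := by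
    rw [Finset.card_insert_of_notMem, Finset.card_insert_of_notMem, Finset.card_pair (Ne.symm hne)]
    · simp only [Finset.mem_insert, Finset.mem_singleton, not_or]
      exact ⟨hrw.symm, hzw.symm⟩
    · simp only [Finset.mem_insert, Finset.mem_singleton, not_or]
      exact ⟨huw, hru.symm, hzu.symm⟩
  have h4 := Finset.card_le_card hsub
  have h5 : (Finset.univ.filter fun z => G.Adj p z ∧ G.Adj q z).card = 3 := h3
  omega

/-- the third common neighbour -/
lemma third {p q : V} (h3 : tr G p q = 3) {u w : V} (huw : u ≠ w) (hu1 : G.Adj p u)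
    (hu2 : G.Adj q u) (hw1 : G.Adj p w) (hw2 : G.Adj q w) :
    ∃ y, G.Adj p y ∧ G.Adj q y ∧ y ≠ u ∧ y ≠ w := by
  have h5 : (Finset.univ.filter fun z => G.Adj p z ∧ G.Adj q z).card = 3 := h3
  have h6 : ({u, w} : Finset V).card = 2 := Finset.card_pair huw
  obtain ⟨y, hy1, hy2⟩ := Finset.exists_mem_notMem_of_card_lt_card (s := ({u, w} : Finset V))
    (t := Finset.univ.filter fun z => G.Adj p z ∧ G.Adj q z) (by omega)
  simp only [Finset.mem_filter, Finset.mem_univ, true_and] at hy1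
  simp only [Finset.mem_insert, Finset.mem_singleton, not_or] at hy2
  exact ⟨y, hy1.1, hy1.2, hy2.1, hy2.2⟩

/-- if the degree is nonzero and two of the triangles are not in `S`, then the third one is -/
lemma thirdS (hS : ∀ T ∈ S, IsTri G T) {p q : V} (h3 : tr G p q = 3) (hpq : p ≠ q) {u w : V}
    (huw : u ≠ w) (hu1 : G.Adj p u) (hu2 : G.Adj q u) (hw1 : G.Adj p w) (hw2 : G.Adj q w)
    (hu : ({p, q, u} : Finset V) ∉ S) (hw : ({p, q, w} : Finset V) ∉ S)
    (hd : dE S s(p, q) ≠ 0) {z : V} (hz1 : G.Adj p z) (hz2 : G.Adj q z) (hzu : z ≠ u)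
    (hzw : z ≠ w) : ({p, q, z} : Finset V) ∈ S := by
  rw [dE_eq hS hpq] at hd
  obtain ⟨r, hr⟩ := Finset.card_ne_zero.mp hd
  rw [mem_DD] at hr
  have hru : r ≠ u := by
    rintro rfl; exact hu hr.2.2
  have hrw : r ≠ w := by
    rintro rfl; exact hw hr.2.2
  have := card3 h3 huw hu1 hu2 hw1 hw2 hr.1 hr.2.1 hz1 hz2 hru hrw hzu hzw
  rw [this]
  exact hr.2.2

/-- if two of the triangles are not in `S` then the degree is at most one -/
lemma le_one (hS : ∀ T ∈ S, IsTri G T) {p q : V} (h3 : tr G p q = 3) (hpq : p ≠ q) {u w : V}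
    (huw : u ≠ w) (hu1 : G.Adj p u) (hu2 : G.Adj q u) (hw1 : G.Adj p w) (hw2 : G.Adj q w)
    (hu : ({p, q, u} : Finset V) ∉ S) (hw : ({p, q, w} : Finset V) ∉ S) :
    dE S s(p, q) ≤ 1 := by
  rw [dE_eq hS hpq, Finset.card_le_one]
  intro r hr r' hr'
  rw [mem_DD] at hr hr'
  have hru : r ≠ u := by
    rintro rfl; exact hu hr.2.2
  have hrw : r ≠ w := by
    rintro rfl; exact hw hr.2.2
  have hru' : r' ≠ u := by
    rintro rfl; exact hu hr'.2.2
  have hrw' : r' ≠ w := by
    rintro rfl; exact hw hr'.2.2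
  exact card3 h3 huw hu1 hu2 hw1 hw2 hr'.1 hr'.2.1 hr.1 hr.2.1 hru' hrw' hru hrw

section link

variable (hS : ∀ T ∈ S, IsTri G T) (h3 : ∀ x y, G.Adj x y → tr G x y = 3)
  {p u v w : V} (hpu : G.Adj p u) (hpv : G.Adj p v) (hpw : G.Adj p w) (huv : G.Adj u v)
  (huw : G.Adj u w) (hvw : G.Adj v w)
  (k1 : ({p, u, v} : Finset V) ∉ S) (k2 : ({p, u, w} : Finset V) ∉ S)
  (k3 : ({p, v, w} : Finset V) ∉ S)
  (hdeg : ∀ z, G.Adj p z → z ≠ u → z ≠ v → z ≠ w → dE S s(p, z) = 0 ∨ dE S s(p, z) = 3)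

include hS h3 hpu hpv hpw huv huw hvw k1 k2 k3 hdeg

lemma alpha (hu : dE S s(p, u) = 0) (hv : dE S s(p, v) ≠ 0) (hw : dE S s(p, w) ≠ 0) :
    ∃ y, y ∉ ({p, u, v, w} : Finset V) ∧ Br G p u y := by
  obtain ⟨y, hy1, hy2, hyv, hyw⟩ := third (h3 p u hpu) hvw.ne hpv huv hpw huw
  have hyu : y ≠ u := hy2.ne'
  have hyp : y ≠ p := hy1.ne'
  refine ⟨y, by simp [hyu, hyp, hyv, hyw], hpu, hy1, hy2,
    Finset.univ.filter fun z => G.Adj p z ∧ z ≠ u ∧ z ≠ v ∧ z ≠ w ∧ dE S s(p, z) = 0, ?_, ?_, ?_, ?_⟩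
  · intro z hz
    simp only [Finset.mem_filter, Finset.mem_univ, true_and] at hz
    exact hz.1
  · simp only [Finset.mem_filter, Finset.mem_univ, true_and]
    refine ⟨hy1, hyu, hyv, hyw, ?_⟩
    rcases hdeg y hy1 hyu hyv hyw with h | h
    · exact h
    · exfalso
      have h4 := full hS (h3 p y hy1) hy1.ne h hpu hy2.symm
      rw [rot23] at h4
      exact ne_zero_of hS hpu.ne hy1 hy2 h4 hu
  · simp
  · intro z hz t ht hpt hzt
    simp only [Finset.mem_filter, Finset.mem_univ, true_and] at hz ht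
    obtain ⟨hpz, hzu, hzv, hzw, hz0⟩ := hz
    have hnS : ({p, z, t} : Finset V) ∉ S := by
      intro h
      exact ne_zero_of hS hpz.ne hpt hzt h hz0
    have hnS' : ({p, t, z} : Finset V) ∉ S := by rw [rot23]; exact hnS
    by_cases htu : t = u
    · subst htu
      exact ⟨card3 (h3 p t hpt) hvw.ne hpv huv hpw huw hy1 hy2 hpz hzt.symm hyv hyw hzv hzw, rfl⟩
    exfalso
    by_cases htv : t = v
    · subst htv
      exact hnS' (thirdS hS (h3 p t hpt) hpt.ne huw.ne hpu huv.symm hpw hvw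
        (by rw [rot23]; exact k1) k3 hv hpz hzt.symm hzu hzw)
    by_cases htw : t = w
    · subst htw
      exact hnS' (thirdS hS (h3 p t hpt) hpt.ne huv.ne hpu huw.symm hpv hvw.symm
        (by rw [rot23]; exact k2) (by rw [rot23]; exact k3) hw hpz hzt.symm hzu hzv)
    rcases hdeg t hpt htu htv htw with h | h
    · exact ht ⟨hpt, htu, htv, htw, h⟩
    · exact hnS' (full hS (h3 p t hpt) hpt.ne h hpz hzt.symm)

lemma beta (hu : dE S s(p, u) ≠ 0) (hv : dE S s(p, v) = 0) (hw : dE S s(p, w) = 0) :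
    ∃ y, y ∉ ({p, u, v, w} : Finset V) ∧ Br G p u y := by
  obtain ⟨y, hy1, hy2, hyv, hyw⟩ := third (h3 p u hpu) hvw.ne hpv huv hpw huw
  have hyu : y ≠ u := hy2.ne'
  have hyp : y ≠ p := hy1.ne'
  have hyS : ({p, u, y} : Finset V) ∈ S :=
    thirdS hS (h3 p u hpu) hpu.ne hvw.ne hpv huv hpw huw k1 k2 hu hy1 hy2 hyv hyw
  refine ⟨y, by simp [hyu, hyp, hyv, hyw], hpu, hy1, hy2,
    Finset.univ.filter fun z => G.Adj p z ∧ z ≠ u ∧ z ≠ v ∧ z ≠ w ∧ dE S s(p, z) ≠ 0, ?_, ?_, ?_, ?_⟩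
  · intro z hz
    simp only [Finset.mem_filter, Finset.mem_univ, true_and] at hz
    exact hz.1
  · simp only [Finset.mem_filter, Finset.mem_univ, true_and]
    refine ⟨hy1, hyu, hyv, hyw, ?_⟩
    exact ne_zero_of hS hy1.ne hpu hy2.symm (by rw [rot23]; exact hyS)
  · simp
  · intro z hz t ht hpt hzt
    simp only [Finset.mem_filter, Finset.mem_univ, true_and] at hz ht
    obtain ⟨hpz, hzu, hzv, hzw, hz0⟩ := hz
    have hz3 : dE S s(p, z) = 3 := (hdeg z hpz hzu hzv hzw).resolve_left hz0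
    have hSz : ({p, z, t} : Finset V) ∈ S := full hS (h3 p z hpz) hpz.ne hz3 hpt hzt
    have ht0 : dE S s(p, t) ≠ 0 :=
      ne_zero_of hS hpt.ne hpz hzt.symm (by rw [rot23]; exact hSz)
    by_cases htu : t = u
    · subst htu
      exact ⟨card3 (h3 p t hpt) hvw.ne hpv huv hpw huw hy1 hy2 hpz hzt.symm hyv hyw hzv hzw, rfl⟩
    exfalso
    by_cases htv : t = v
    · subst htv; exact ht0 hv
    by_cases htw : t = w
    · subst htw; exact ht0 hw
    exact ht ⟨hpt, htu, htv, htw, ht0⟩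

end link

section dist

omit [Fintype V]

variable {x a b c : V}

lemma card_PC (nxa : x ≠ a) (nxb : x ≠ b) (nxc : x ≠ c) (nab : a ≠ b) (nac : a ≠ c) (nbc : b ≠ c) :
    ({s(x, b), s(b, a), s(a, c), s(c, x)} : Finset (Sym2 V)).card = 4 := by
  rw [Finset.card_insert_of_notMem, Finset.card_insert_of_notMem, Finset.card_pair]
  · simp only [ne_eq, Sym2.eq_iff, not_or, not_and]; tauto
  · simp only [Finset.mem_insert, Finset.mem_singleton, Sym2.eq_iff]; tauto
  · simp only [Finset.mem_insert, Finset.mem_singleton, Sym2.eq_iff]; tauto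

lemma sum_PC (nxa : x ≠ a) (nxb : x ≠ b) (nxc : x ≠ c) (nab : a ≠ b) (nac : a ≠ c) (nbc : b ≠ c)
    (f : Sym2 V → ℕ) :
    ∑ e ∈ ({s(x, b), s(b, a), s(a, c), s(c, x)} : Finset (Sym2 V)), f e =
      f s(x, b) + (f s(b, a) + (f s(a, c) + f s(c, x))) := by
  rw [Finset.sum_insert, Finset.sum_insert, Finset.sum_pair]
  · simp only [ne_eq, Sym2.eq_iff, not_or, not_and]; tauto
  · simp only [Finset.mem_insert, Finset.mem_singleton, Sym2.eq_iff]; tauto
  · simp only [Finset.mem_insert, Finset.mem_singleton, Sym2.eq_iff]; tauto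

lemma tri_ne {p q r t u v : V} (h1 : r ≠ t) (h2 : r ≠ u) (h3 : r ≠ v) :
    ({p, q, r} : Finset V) ≠ {t, u, v} := by
  intro h
  have : r ∈ ({t, u, v} : Finset V) := by rw [← h]; simp
  simp only [Finset.mem_insert, Finset.mem_singleton] at this
  tauto

lemma card_TC (nxa : x ≠ a) (nxb : x ≠ b) (nxc : x ≠ c) (nab : a ≠ b) (nac : a ≠ c) (nbc : b ≠ c) :
    ({{x, a, b}, {x, a, c}, {x, b, c}, {a, b, c}} : Finset (Finset V)).card = 4 := by
  have e1 : ({x, a, b} : Finset V) ≠ {x, a, c} := tri_ne nxb.symm nab.symm nbc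
  have e2 : ({x, a, b} : Finset V) ≠ {x, b, c} := by
    rw [rot23]; exact tri_ne nxa.symm nab nac
  have e3 : ({x, a, b} : Finset V) ≠ {a, b, c} := by
    rw [rot12, rot23]; exact tri_ne nxa nxb nxc
  have e4 : ({x, a, c} : Finset V) ≠ {x, b, c} := by
    rw [rot23]; exact tri_ne nxa.symm nab nac
  have e5 : ({x, a, c} : Finset V) ≠ {a, b, c} := by
    rw [rot12, rot23]; exact tri_ne nxa nxb nxc
  have e6 : ({x, b, c} : Finset V) ≠ {a, b, c} := by
    rw [rot12, rot23]; exact tri_ne nxa nxb nxc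
  rw [Finset.card_insert_of_notMem, Finset.card_insert_of_notMem, Finset.card_pair e6]
  · rw [Finset.mem_insert, Finset.mem_singleton, not_or]; exact ⟨e4, e5⟩
  · rw [Finset.mem_insert, Finset.mem_insert, Finset.mem_singleton, not_or, not_or]
    exact ⟨e1, e2, e3⟩

lemma xa_notin (nxa : x ≠ a) (nxb : x ≠ b) (nxc : x ≠ c) (nab : a ≠ b) (nac : a ≠ c) :
    s(x, a) ∉ ({s(x, b), s(b, a), s(a, c), s(c, x)} : Finset (Sym2 V)) := by
  simp only [Finset.mem_insert, Finset.mem_singleton, Sym2.eq_iff]; tauto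

lemma bc_notin (nxb : x ≠ b) (nxc : x ≠ c) (nab : a ≠ b) (nac : a ≠ c) (nbc : b ≠ c) :
    s(b, c) ∉ ({s(x, b), s(b, a), s(a, c), s(c, x)} : Finset (Sym2 V)) := by
  simp only [Finset.mem_insert, Finset.mem_singleton, Sym2.eq_iff]; tauto

lemma out_notin {p z : V} (hz : z ∉ ({x, a, b, c} : Finset V)) :
    s(p, z) ∉ ({s(x, b), s(b, a), s(a, c), s(c, x)} : Finset (Sym2 V)) := by
  simp only [Finset.mem_insert, Finset.mem_singleton, not_or] at hz
  simp only [Finset.mem_insert, Finset.mem_singleton, Sym2.eq_iff]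
  tauto

/-- the colouring of the pairs -/
noncomputable def col (x a b c : V) (e : Sym2 V) : Bool := decide (e = s(x, b) ∨ e = s(a, c))

lemma col1 : col x a b c s(x, b) = true := by simp [col]

lemma col2 : col x a b c s(a, c) = true := by simp [col]

lemma col3 (nxa : x ≠ a) (nxb : x ≠ b) (nab : a ≠ b) (nbc : b ≠ c) :
    col x a b c s(b, a) = false := by
  unfold col
  rw [decide_eq_false_iff_not]
  simp only [Sym2.eq_iff]; tauto

lemma col4 (nxa : x ≠ a) (nxc : x ≠ c) (nac : a ≠ c) (nbc : b ≠ c) :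
    col x a b c s(c, x) = false := by
  unfold col
  rw [decide_eq_false_iff_not]
  simp only [Sym2.eq_iff]; tauto

lemma mm {p q : V} {T : Finset V} (hp : p ∈ T) (hq : q ∈ T) : ∀ u ∈ s(p, q), u ∈ T := by
  intro u hu
  rw [Sym2.mem_iff] at hu
  rcases hu with rfl | rfl
  · exact hp
  · exact hq

lemma hmem {z p q r s : V} (h1 : z ≠ p) (h2 : z ≠ q) (h3 : z ≠ r) (h4 : z ≠ s) :
    z ∉ ({p, q, r, s} : Finset V) := by
  simp [h1, h2, h3, h4]

end dist

theorem main : ViolGStm → K1Stm := by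
  intro hV V _ G hC x a b c hxa hxb hxc hab hac hbc
  have h3 := hC.three
  have nxa := hxa.ne
  have nxb := hxb.ne
  have nxc := hxc.ne
  have nab := hab.ne
  have nac := hac.ne
  have nbc := hbc.ne
  have nxa' := hxa.ne'
  have nxb' := hxb.ne'
  have nxc' := hxc.ne'
  have nab' := hab.ne'
  have nac' := hac.ne'
  have nbc' := hbc.ne'
  set TC : Finset (Finset V) := {{x, a, b}, {x, a, c}, {x, b, c}, {a, b, c}} with hTC
  set PC : Finset (Sym2 V) := {s(x, b), s(b, a), s(a, c), s(c, x)} with hPC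
  have hPCcard : PC.card = 4 := card_PC nxa nxb nxc nab nac nbc
  have hTCcard : TC.card = 4 := card_TC nxa nxb nxc nab nac nbc
  obtain ⟨S, hS1, hS2, hS3, hS4⟩ := hV V G hC TC PC
    (col x a b c) (by
      intro T hT
      simp only [hTC, Finset.mem_insert, Finset.mem_singleton] at hT
      rcases hT with rfl | rfl | rfl | rfl
      · exact ⟨x, a, b, hxa, hab, hxb, rfl⟩
      · exact ⟨x, a, c, hxa, hac, hxc, rfl⟩
      · exact ⟨x, b, c, hxb, hbc, hxc, rfl⟩
      · exact ⟨a, b, c, hab, hbc, hac, rfl⟩) (by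
      intro e he
      simp only [hPC, Finset.mem_insert, Finset.mem_singleton] at he
      rcases he with rfl | rfl | rfl | rfl
      · exact hxb
      · exact hab.symm
      · exact hac
      · exact hxc.symm) ⟨s(x, b), by simp [hPC]⟩ (by rw [hTCcard, hPCcard]) (by
      have c1 := col1 (x := x) (a := a) (b := b) (c := c)
      have c2 := col2 (x := x) (a := a) (b := b) (c := c)
      have c3 := col3 nxa nxb nab nbc
      have c4 := col4 nxa nxc nac nbc
      intro T hT
      simp only [hTC, Finset.mem_insert, Finset.mem_singleton] at hT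
      rcases hT with rfl | rfl | rfl | rfl
      · exact ⟨s(x, b), by simp [hPC], s(b, a), by simp [hPC], mm (by simp) (by simp),
          mm (by simp) (by simp), by rw [c1, c3]; exact Bool.noConfusion⟩
      · exact ⟨s(a, c), by simp [hPC], s(c, x), by simp [hPC], mm (by simp) (by simp),
          mm (by simp) (by simp), by rw [c2, c4]; exact Bool.noConfusion⟩
      · exact ⟨s(x, b), by simp [hPC], s(c, x), by simp [hPC], mm (by simp) (by simp),
          mm (by simp) (by simp), by rw [c1, c4]; exact Bool.noConfusion⟩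
      · exact ⟨s(a, c), by simp [hPC], s(b, a), by simp [hPC], mm (by simp) (by simp),
          mm (by simp) (by simp), by rw [c2, c3]; exact Bool.noConfusion⟩)
  -- the triangles of the `K₄` are not in `S`
  have t1 : ({x, a, b} : Finset V) ∉ S := fun h => hS2 _ h (by simp [hTC])
  have t2 : ({x, a, c} : Finset V) ∉ S := fun h => hS2 _ h (by simp [hTC])
  have t3 : ({x, b, c} : Finset V) ∉ S := fun h => hS2 _ h (by simp [hTC])
  have t4 : ({a, b, c} : Finset V) ∉ S := fun h => hS2 _ h (by simp [hTC])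
  have r1 : ({a, x, b} : Finset V) ∉ S := by rw [rot12]; exact t1
  have r2 : ({a, x, c} : Finset V) ∉ S := by rw [rot12]; exact t2
  have r3 : ({x, b, a} : Finset V) ∉ S := by rw [rot23]; exact t1
  have r4 : ({b, x, a} : Finset V) ∉ S := by rw [rot12]; exact r3
  have r5 : ({b, x, c} : Finset V) ∉ S := by rw [rot12]; exact t3
  have r6 : ({b, a, c} : Finset V) ∉ S := by rw [rot12]; exact t4
  have r7 : ({x, c, a} : Finset V) ∉ S := by rw [rot23]; exact t2
  have r8 : ({x, c, b} : Finset V) ∉ S := by rw [rot23]; exact t3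
  have r9 : ({c, x, a} : Finset V) ∉ S := by rw [rot12]; exact r7
  have r10 : ({c, x, b} : Finset V) ∉ S := by rw [rot12]; exact r8
  have r11 : ({a, c, b} : Finset V) ∉ S := by rw [rot23]; exact t4
  have r12 : ({c, a, b} : Finset V) ∉ S := by rw [rot12]; exact r11
  -- degrees of the pairs of the `K₄`
  have dxb : dE S s(x, b) ≤ 1 :=
    le_one hS1 (h3 _ _ hxb) nxb nac hxa hab.symm hxc hbc r3 t3
  have dba : dE S s(b, a) ≤ 1 :=
    le_one hS1 (h3 _ _ hab.symm) nab' nxc hxb.symm hxa.symm hbc hac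
      (by rw [rot23]; exact r4) r6
  have dac : dE S s(a, c) ≤ 1 :=
    le_one hS1 (h3 _ _ hac) nac nxb hxa.symm hxc.symm hab hbc.symm
      (by rw [rot23]; exact r2) r11
  have dcx : dE S s(c, x) ≤ 1 :=
    le_one hS1 (h3 _ _ hxc.symm) nxc' nab hac.symm hxa hbc.symm hxb r9 r10
  have dxa : dE S s(x, a) ≤ 1 :=
    le_one hS1 (h3 _ _ hxa) nxa nbc hxb hab hxc hac t1 t2
  have dbc : dE S s(b, c) ≤ 1 :=
    le_one hS1 (h3 _ _ hbc) nbc nxa hxb.symm hxc.symm hab.symm hac.symm
      (by rw [rot23]; exact r5) (by rw [rot23]; exact r6)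
  have zxa : dE S s(x, a) = 0 := by
    by_contra h
    have := hS3 s(x, a) hxa (xa_notin nxa nxb nxc nab nac) (Nat.pos_of_ne_zero h)
    omega
  have zbc : dE S s(b, c) = 0 := by
    by_contra h
    have := hS3 s(b, c) hbc (bc_notin nxb nxc nab nac nbc) (Nat.pos_of_ne_zero h)
    omega
  have hsum : ∑ e ∈ PC, dE S e = dE S s(x, b) + (dE S s(b, a) + (dE S s(a, c) + dE S s(c, x))) :=
    sum_PC nxa nxb nxc nab nac nbc _
  rw [hsum] at hS4
  set TW : Finset (Sym2 V) := Finset.univ.filter fun e : Sym2 V =>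
    e ∈ G.edgeSet ∧ e ∉ PC ∧ dE S e = 2 with hTW
  -- outer pairs
  have hout : ∀ p z : V, p ∈ ({x, a, b, c} : Finset V) → G.Adj p z →
      z ∉ ({x, a, b, c} : Finset V) → s(p, z) ∉ TW → dE S s(p, z) = 0 ∨ dE S s(p, z) = 3 := by
    intro p z hp hpz hz hn
    have hnPC : s(p, z) ∉ PC := out_notin hz
    by_cases h0 : dE S s(p, z) = 0
    · exact Or.inl h0
    right
    have h2 := hS3 _ hpz hnPC (Nat.pos_of_ne_zero h0)
    have hle : dE S s(p, z) ≤ 3 := by
      rw [dE_eq hS1 hpz.ne]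
      have hsub : DD G S p z ⊆ Finset.univ.filter fun r => G.Adj p r ∧ G.Adj z r := by
        intro r hr
        rw [mem_DD] at hr
        simp [hr.1, hr.2.1]
      have h5 : (Finset.univ.filter fun r => G.Adj p r ∧ G.Adj z r).card = 3 := h3 _ _ hpz
      have := Finset.card_le_card hsub
      omega
    have hne2 : dE S s(p, z) ≠ 2 := by
      intro h
      apply hn
      rw [hTW, Finset.mem_filter]
      exact ⟨Finset.mem_univ _, hpz, hnPC, h⟩
    omega
  by_cases hAB : dE S s(b, a) = 0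
  · -- (β)
    have hTW0 : TW = ∅ := by
      rw [← Finset.card_eq_zero]; omega
    left; right; left
    obtain ⟨y, -, hy⟩ := beta (p := b) (u := x) (v := a) (w := c) hS1 h3 hxb.symm hab.symm hbc hxa
      hxc hac r4 r5 r6 (fun z hz h1 h2 h3' => hout b z (by simp) hz
        (hmem h1 h2 hz.ne' h3') (by simp [hTW0])) (by rw [Sym2.eq_swap]; omega)
      hAB zbc
    exact ⟨y, hy⟩
  by_cases hAC : dE S s(a, c) = 0
  · -- (β')
    have hTW0 : TW = ∅ := by
      rw [← Finset.card_eq_zero]; omega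
    left; right; right
    obtain ⟨y, -, hy⟩ := beta (p := c) (u := x) (v := a) (w := b) hS1 h3 hxc.symm hac.symm hbc.symm
      hxa hxb hab r9 r10 r12 (fun z hz h1 h2 h3' => hout c z (by simp) hz
        (hmem h1 h2 h3' hz.ne') (by simp [hTW0])) (by omega)
      (by rw [Sym2.eq_swap]; exact hAC) (by rw [Sym2.eq_swap]; exact zbc)
    exact ⟨y, hy⟩
  by_cases hq : ∃ q, G.Adj a q ∧ q ∉ ({x, a, b, c} : Finset V) ∧ s(a, q) ∈ TW
  · -- (γ)
    obtain ⟨q, hq1, hq2, hq3⟩ := hq
    have hTWpos : 0 < TW.card := Finset.card_pos.mpr ⟨_, hq3⟩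
    have hTW1 : TW.card = 1 := by omega
    have huniq : ∀ e ∈ TW, e = s(a, q) := by
      obtain ⟨e0, he0⟩ := Finset.card_eq_one.mp hTW1
      intro e he
      rw [he0, Finset.mem_singleton] at he hq3
      rw [he, hq3]
    have hq2' := hq2
    simp only [Finset.mem_insert, Finset.mem_singleton, not_or] at hq2'
    right
    refine ⟨q, hq1, hq2, ?_, ?_⟩
    · obtain ⟨y, hy0, hy⟩ := alpha (p := b) (u := c) (v := x) (w := a) hS1 h3 hbc hxb.symm hab.symm
        hxc.symm hac.symm hxa (by rw [rot23]; exact r5) (by rw [rot23]; exact r6) r4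
        (fun z hz h1 h2 h3' => hout b z (by simp) hz (hmem h2 h3' hz.ne' h1) (by
          intro h
          have := huniq _ h
          rw [Sym2.eq_iff] at this
          rcases this with ⟨h5, -⟩ | ⟨h5, -⟩
          · exact nab' h5
          · exact hq2'.2.2.1 h5.symm)) zbc (by rw [Sym2.eq_swap]; omega) hAB
      refine ⟨y, ?_, hy⟩
      simp only [Finset.mem_insert, Finset.mem_singleton, not_or] at hy0 ⊢
      exact ⟨hy0.2.2.1, hy0.2.2.2, hy0.1, hy0.2.1⟩
    · obtain ⟨y, hy0, hy⟩ := alpha (p := c) (u := b) (v := x) (w := a) hS1 h3 hbc.symm hxc.symm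
        hac.symm hxb.symm hab.symm hxa (by rw [rot23]; exact r10) (by rw [rot23]; exact r12) r9
        (fun z hz h1 h2 h3' => hout c z (by simp) hz (hmem h2 h3' h1 hz.ne') (by
          intro h
          have := huniq _ h
          rw [Sym2.eq_iff] at this
          rcases this with ⟨h5, -⟩ | ⟨h5, -⟩
          · exact nac' h5
          · exact hq2'.2.2.2 h5.symm)) (by rw [Sym2.eq_swap]; exact zbc) (by omega)
          (by rw [Sym2.eq_swap]; exact hAC)
      refine ⟨y, ?_, hy⟩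
      simp only [Finset.mem_insert, Finset.mem_singleton, not_or] at hy0 ⊢
      exact ⟨hy0.2.2.1, hy0.2.2.2, hy0.2.1, hy0.1⟩
  · -- (α)
    left; left
    obtain ⟨y, -, hy⟩ := alpha (p := a) (u := x) (v := b) (w := c) hS1 h3 hxa.symm hab hac hxb hxc
      hbc r1 r2 t4 (fun z hz h1 h2 h3' => by
        have hz' : z ∉ ({x, a, b, c} : Finset V) := hmem h1 hz.ne' h2 h3'
        exact hout a z (by simp) hz hz' fun h => hq ⟨z, hz, hz', h⟩)
      (by rw [Sym2.eq_swap]; exact zxa) (by rw [Sym2.eq_swap]; exact hAB) hAC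
    exact ⟨y, hy⟩

end TriRam.K1
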