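import Pool.Agent.R666.TR3.Stms

/-!
# Project TR3, piece K2
-/

namespace TriRam.K2

open Classical

/-- three common neighbours are all the common neighbours -/
lemma third {V : Type} [Fintype V] {G : SimpleGraph V} {a b p q r z : V} (h : tr G a b = 3)
    (hp : G.Adj a p ∧ G.Adj b p) (hq : G.Adj a q ∧ G.Adj b q) (hr : G.Adj a r ∧ G.Adj b r)
    (hpq : p ≠ q) (hpr : p ≠ r) (hqr : q ≠ r) (hz : G.Adj a z ∧ G.Adj b z) :
    z = p ∨ z = q ∨ z = r := by
  have h1 : ({p, q, r} : Finset V) ⊆ Finset.univ.filter fun z => G.Adj a z ∧ G.Adj b z := by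
    intro u hu
    simp only [Finset.mem_insert, Finset.mem_singleton] at hu
    rw [Finset.mem_filter]
    rcases hu with rfl | rfl | rfl
    · exact ⟨Finset.mem_univ _, hp⟩
    · exact ⟨Finset.mem_univ _, hq⟩
    · exact ⟨Finset.mem_univ _, hr⟩
  have h2 : ({p, q, r} : Finset V).card = 3 := Finset.card_eq_three.2 ⟨p, q, r, hpq, hpr, hqr, rfl⟩
  have h3 : ({p, q, r} : Finset V) = Finset.univ.filter fun z => G.Adj a z ∧ G.Adj b z := by
    refine Finset.eq_of_subset_of_card_le h1 ?_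
    rw [h2]
    exact h.le
  have h4 : z ∈ ({p, q, r} : Finset V) := by
    rw [h3, Finset.mem_filter]
    exact ⟨Finset.mem_univ _, hz⟩
  simpa only [Finset.mem_insert, Finset.mem_singleton] using h4

theorem main : K2Stm := by
  intro V _ G hG x a b c hxa hxb hxc hab hac hbc h1 h2
  obtain ⟨y1, hy1, -, hay1, hby1, E1, hE1a, hy1E, hbE, hE1⟩ := h1
  obtain ⟨y2, hy2, -, hay2, hcy2, E2, hE2a, hy2E, hcE, hE2⟩ := h2
  simp only [Finset.mem_insert, Finset.mem_singleton, not_or] at hy1 hy2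
  obtain ⟨hy1x, hy1a, hy1b, hy1c⟩ := hy1
  obtain ⟨hy2x, hy2a, hy2b, hy2c⟩ := hy2
  -- the third common neighbour of `a, x`
  obtain ⟨y, hy, hyb, hyc⟩ : ∃ y, (G.Adj a y ∧ G.Adj x y) ∧ y ≠ b ∧ y ≠ c := by
    by_contra hcon
    push Not at hcon
    have h3 : (Finset.univ.filter fun z => G.Adj a z ∧ G.Adj x z) ⊆ ({b, c} : Finset V) := by
      intro z hz
      rw [Finset.mem_filter] at hz
      simp only [Finset.mem_insert, Finset.mem_singleton]
      by_cases hzb : z = b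
      · exact Or.inl hzb
      · exact Or.inr (hcon z hz.2 hzb)
    have h4 := Finset.card_le_card h3
    have h5 : ({b, c} : Finset V).card ≤ 2 := Finset.card_le_two
    have h6 := hG a x hxa.symm
    unfold tr at h6
    omega
  have hyx : y ≠ x := hy.2.ne'
  have hbc' : b ≠ c := hbc.ne
  have hxE1 : x ∉ E1 := by
    intro hx
    have := (hE1 x hx b hbE hab hxb).1
    exact hy1x this.symm
  have hxE2 : x ∉ E2 := by
    intro hx
    have := (hE2 x hx c hcE hac hxc).1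
    exact hy2x this.symm
  have hyE1 : y ∉ E1 := by
    intro hyE
    have := (hE1 y hyE x hxE1 hxa.symm hy.2.symm).2
    exact hxb.ne this
  have hyE2 : y ∉ E2 := by
    intro hyE
    have := (hE2 y hyE x hxE2 hxa.symm hy.2.symm).2
    exact hxc.ne this
  refine ⟨y, hxa.symm, hy.1, hy.2, Finset.univ.filter fun z => G.Adj a z ∧ z ∉ E1 ∧ z ∉ E2 ∧
    z ≠ x ∧ z ≠ b ∧ z ≠ c, ?_, ?_, ?_, ?_⟩
  · intro z hz
    rw [Finset.mem_filter] at hz
    exact hz.2.1
  · rw [Finset.mem_filter]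
    exact ⟨Finset.mem_univ _, hy.1, hyE1, hyE2, hyx, hyb, hyc⟩
  · intro hx
    rw [Finset.mem_filter] at hx
    exact hx.2.2.2.2.1 rfl
  · intro z hz w hw haw hzw
    rw [Finset.mem_filter] at hz
    obtain ⟨-, haz, hzE1, hzE2, hzx, hzb, hzc⟩ := hz
    by_cases hw1 : w ∈ E1
    · exact absurd (hE1 w hw1 z hzE1 haz hzw.symm).2 hzb
    by_cases hw2 : w ∈ E2
    · exact absurd (hE2 w hw2 z hzE2 haz hzw.symm).2 hzc
    by_cases hwx : w = x
    · subst hwx
      rcases third (hG a w haw) ⟨hab, hxb⟩ ⟨hac, hxc⟩ hy hbc' (Ne.symm hyb) (Ne.symm hyc)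
        ⟨haz, hzw.symm⟩ with h | h | h
      · exact absurd h hzb
      · exact absurd h hzc
      · exact ⟨h, rfl⟩
    by_cases hwb : w = b
    · subst hwb
      rcases third (hG a w haw) ⟨hxa.symm, hxb.symm⟩ ⟨hac, hbc⟩ ⟨hay1, hby1⟩ hxc.ne
        (Ne.symm hy1x) (Ne.symm hy1c) ⟨haz, hzw.symm⟩ with h | h | h
      · exact absurd h hzx
      · exact absurd h hzc
      · exact absurd (h ▸ hy1E) hzE1
    by_cases hwc : w = c
    · subst hwc
      rcases third (hG a w haw) ⟨hxa.symm, hxc.symm⟩ ⟨hab, hbc.symm⟩ ⟨hay2, hcy2⟩ hxb.ne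
        (Ne.symm hy2x) (Ne.symm hy2b) ⟨haz, hzw.symm⟩ with h | h | h
      · exact absurd h hzx
      · exact absurd h hzb
      · exact absurd (h ▸ hy2E) hzE2
    exfalso
    apply hw
    rw [Finset.mem_filter]
    exact ⟨Finset.mem_univ _, haw, hw1, hw2, hwx, hwb, hwc⟩

end TriRam.K2
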